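import Mathlib

/-!
# The matrix of the twist of `X_0(49)` by `D` is singular if and only if `D` has a divisor with
# certain properties
-/

set_option autoImplicit false

namespace Pool.Agent.T9h61.QA

/-- `D` is squarefree and all its prime factors are `≡ 1 mod 4`. -/
def Adm (D : ℕ) : Prop := Squarefree D ∧ ∀ p ∈ D.primeFactors, p % 4 = 1

open Classical in
/-- The prime factors of `D` which split in `ℚ(√-7)`. -/
noncomputable def split (D : ℕ) : Finset ℕ := D.primeFactors.filter fun p => IsSquare (-7 : ZMod p)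

open Classical in
/-- `1` if `m` is not a square modulo `p`, and `0` if it is -/
noncomputable def nonsq (p m : ℕ) : ZMod 2 := if IsSquare (m : ZMod p) then 0 else 1

open Classical in
/-- `1` if `-7` is not a fourth power modulo `p`, and `0` if it is -/
noncomputable def nonfourth (p : ℕ) : ZMod 2 := if ∃ y : ZMod p, y ^ 4 = -7 then 0 else 1

/-- the matrix -/
noncomputable def mat (D : ℕ) : Matrix (split D) (split D) (ZMod 2) := Matrix.of fun i j =>
  if i = j then nonfourth i + ∑ l ∈ D.primeFactors.erase i, nonsq i l else nonsq i j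

/-! ### additivity of `nonsq` -/

theorem nonsq_mul {p : ℕ} [hp : Fact p.Prime] (h2 : p ≠ 2) {a b : ℕ} (ha : (a : ZMod p) ≠ 0)
    (hb : (b : ZMod p) ≠ 0) : nonsq p (a * b) = nonsq p a + nonsq p b := by
  classical
  have hc : ringChar (ZMod p) ≠ 2 := by rwa [ZMod.ringChar_zmod_n]
  have h1 := quadraticChar_one_iff_isSquare ha
  have h3 := quadraticChar_one_iff_isSquare hb
  have h4 := quadraticChar_one_iff_isSquare (mul_ne_zero ha hb)
  unfold nonsq
  rw [Nat.cast_mul, ← h1, ← h3, ← h4, map_mul]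
  rcases quadraticChar_dichotomy ha with h5 | h5 <;> rcases quadraticChar_dichotomy hb with h6 | h6
    <;> rw [h5, h6] <;> simp <;> decide

theorem nonsq_one (p : ℕ) : nonsq p 1 = 0 := by
  unfold nonsq
  rw [if_pos]
  exact ⟨1, by simp⟩

theorem nonsq_prod {p : ℕ} [hp : Fact p.Prime] (h2 : p ≠ 2) (T : Finset ℕ)
    (hT : ∀ q ∈ T, q.Prime ∧ q ≠ p) : ∑ q ∈ T, nonsq p q = nonsq p (∏ q ∈ T, q) := by
  classical
  have hne : ∀ q : ℕ, q.Prime → q ≠ p → (q : ZMod p) ≠ 0 := by
    intro q hq hqp h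
    rw [ZMod.natCast_eq_zero_iff] at h
    exact hqp ((Nat.prime_dvd_prime_iff_eq hp.1 hq).1 h).symm
  induction T using Finset.induction_on with
  | empty => rw [Finset.sum_empty, Finset.prod_empty, nonsq_one]
  | insert a s ha ih =>
    rw [Finset.sum_insert ha, Finset.prod_insert ha, ih fun q hq => hT q (Finset.mem_insert_of_mem hq)]
    have h1 := hT a (Finset.mem_insert_self a s)
    refine (nonsq_mul h2 (hne a h1.1 h1.2) ?_).symm
    rw [Nat.cast_prod, Finset.prod_ne_zero_iff]
    intro q hq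
    have := hT q (Finset.mem_insert_of_mem hq)
    exact hne q this.1 this.2

/-- the value of a row -/
theorem row {D : ℕ} {S : Finset ℕ} (hS : S ⊆ split D) (h2 : ¬ 2 ∣ D) (i : split D)
    (v : split D → ZMod 2) (hv : ∀ j : split D, v j = if j.1 ∈ S then 1 else 0) :
    (mat D).mulVec v i = if i.1 ∈ S then nonfourth i + nonsq i (∏ q ∈ D.primeFactors \ S, q)
      else nonsq i (∏ q ∈ S, q) := by
  classical
  have hpf : split D ⊆ D.primeFactors := Finset.filter_subset _ _
  have hip : i.1.Prime := Nat.prime_of_mem_primeFactors (hpf i.2)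
  have : Fact i.1.Prime := ⟨hip⟩
  have hi2 : i.1 ≠ 2 := by
    intro h
    have := Nat.dvd_of_mem_primeFactors (hpf i.2)
    rw [h] at this
    exact h2 this
  have e1 : (mat D).mulVec v i = ∑ j ∈ S, (if i.1 = j then nonfourth i +
      ∑ l ∈ D.primeFactors.erase i, nonsq i l else nonsq i j) := by
    unfold Matrix.mulVec dotProduct
    have e2 : ∀ j : split D, mat D i j * v j = (fun j : ℕ => (if i.1 = j then nonfourth i +
      ∑ l ∈ D.primeFactors.erase i, nonsq i l else nonsq i j) * (if j ∈ S then 1 else 0)) j.1 := by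
      intro j
      rw [hv j]
      unfold mat
      rw [Matrix.of_apply]
      simp only [Subtype.ext_iff]
    rw [Finset.sum_congr rfl fun j _ => e2 j]
    rw [Finset.sum_coe_sort (split D) (fun j : ℕ => (if i.1 = j then nonfourth i +
      ∑ l ∈ D.primeFactors.erase i, nonsq i l else nonsq i j) * (if j ∈ S then 1 else 0))]
    simp only [mul_ite, mul_one, mul_zero]
    rw [← Finset.sum_filter, Finset.filter_mem_eq_inter, Finset.inter_eq_right.2 hS]
  rw [e1]
  by_cases hi : i.1 ∈ S
  · rw [if_pos hi, ← Finset.add_sum_erase S _ hi, if_pos rfl]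
    have e3 : ∑ j ∈ S.erase i.1, (if i.1 = j then nonfourth i +
        ∑ l ∈ D.primeFactors.erase i, nonsq i l else nonsq i j) = ∑ j ∈ S.erase i.1, nonsq i j := by
      refine Finset.sum_congr rfl fun j hj => ?_
      rw [if_neg (Finset.ne_of_mem_erase hj).symm]
    have e4 : D.primeFactors.erase i.1 = (D.primeFactors \ S) ∪ (S.erase i.1) := by
      ext x
      simp only [Finset.mem_erase, Finset.mem_union, Finset.mem_sdiff]
      constructor
      · rintro ⟨h1, h3⟩
        by_cases hx : x ∈ S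
        · exact Or.inr ⟨h1, hx⟩
        · exact Or.inl ⟨h3, hx⟩
      · rintro (⟨h1, h3⟩ | ⟨h1, h3⟩)
        · refine ⟨fun h => h3 (h ▸ hi), h1⟩
        · exact ⟨h1, hpf (hS h3)⟩
    have e5 : Disjoint (D.primeFactors \ S) (S.erase i.1) := by
      rw [Finset.disjoint_left]
      intro x hx hx'
      exact (Finset.mem_sdiff.1 hx).2 (Finset.mem_of_mem_erase hx')
    rw [e3, e4, Finset.sum_union e5, add_assoc, add_assoc]
    have e6 : ∀ z : ZMod 2, z + z = 0 := by decide
    rw [e6, add_zero, nonsq_prod hi2]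
    intro q hq
    have h3 := Finset.mem_sdiff.1 hq
    exact ⟨Nat.prime_of_mem_primeFactors h3.1, fun h => h3.2 (h ▸ hi)⟩
  · rw [if_neg hi]
    have e3 : ∑ j ∈ S, (if i.1 = j then nonfourth i +
        ∑ l ∈ D.primeFactors.erase i, nonsq i l else nonsq i j) = ∑ j ∈ S, nonsq i j := by
      refine Finset.sum_congr rfl fun j hj => ?_
      rw [if_neg (fun h : i.1 = j => hi (h ▸ hj))]
    rw [e3, nonsq_prod hi2]
    intro q hq
    exact ⟨Nat.prime_of_mem_primeFactors (hpf (hS hq)), fun h => hi (h ▸ hq)⟩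

/-- the divisor criterion -/
def Bad (D : ℕ) : Prop := ∃ d : ℕ, d ∣ D ∧ d ≠ 1 ∧ (∀ p : ℕ, p.Prime → p ∣ d → IsSquare (-7 : ZMod p)) ∧
  ∀ p : ℕ, p.Prime → p ∣ D → IsSquare (-7 : ZMod p) →
    (¬ p ∣ d → IsSquare (d : ZMod p)) ∧
    (p ∣ d → (IsSquare ((D / d : ℕ) : ZMod p) ↔ ∃ y : ZMod p, y ^ 4 = -7))

theorem val_iff {p m : ℕ} : nonsq p m = 0 ↔ IsSquare (m : ZMod p) := by
  classical
  unfold nonsq
  split_ifs with h
  · simp [h]
  · simp [h]

theorem four_iff {p m : ℕ} : nonfourth p + nonsq p m = 0 ↔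
    (IsSquare (m : ZMod p) ↔ ∃ y : ZMod p, y ^ 4 = -7) := by
  classical
  unfold nonsq nonfourth
  split_ifs with h1 h2 h2
  · simp [h1, h2]
  · simp only [h1, h2, zero_add]
    simp
  · simp only [h1, h2]
    simp
  · simp only [h1, h2]
    decide

/-- **the matrix is singular if and only if there is a bad divisor** -/
theorem det_iff {D : ℕ} (hsq : Squarefree D) (h2 : ¬ 2 ∣ D) : (mat D).det = 0 ↔ Bad D := by
  classical
  have hpf : split D ⊆ D.primeFactors := Finset.filter_subset _ _
  have hD0 : D ≠ 0 := hsq.ne_zero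
  rw [← Matrix.exists_mulVec_eq_zero_iff]
  constructor
  · rintro ⟨v, hv0, hv⟩
    set S : Finset ℕ := (split D).filter fun j => ∃ h : j ∈ split D, v ⟨j, h⟩ = 1 with hS
    have hSs : S ⊆ split D := Finset.filter_subset _ _
    have hvS : ∀ j : split D, v j = if j.1 ∈ S then 1 else 0 := by
      intro j
      have h3 : j.1 ∈ S ↔ v j = 1 := by
        rw [hS, Finset.mem_filter]
        constructor
        · rintro ⟨-, h, h4⟩
          exact h4
        · intro h
          exact ⟨j.2, j.2, h⟩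
      by_cases h4 : j.1 ∈ S
      · rw [if_pos h4, h3.1 h4]
      · rw [if_neg h4]
        have h5 : v j ≠ 1 := fun h => h4 (h3.2 h)
        have h6 : ∀ z : ZMod 2, z ≠ 1 → z = 0 := by decide
        exact h6 _ h5
    have hSne : S.Nonempty := by
      by_contra hcon
      rw [Finset.not_nonempty_iff_eq_empty] at hcon
      apply hv0
      funext j
      rw [hvS j, hcon]
      simp
    have hprod : ∏ q ∈ D.primeFactors, q = D := Nat.prod_primeFactors_of_squarefree hsq
    have hsplit : (∏ q ∈ D.primeFactors \ S, q) * ∏ q ∈ S, q = D := by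
      rw [Finset.prod_sdiff (hSs.trans hpf), hprod]
    have hSp : ∀ q ∈ S, q.Prime := fun q hq => Nat.prime_of_mem_primeFactors (hpf (hSs hq))
    have hpS : ∀ p : ℕ, p.Prime → (p ∣ ∏ q ∈ S, q ↔ p ∈ S) := by
      intro p hp
      rw [hp.prime.dvd_finsetProd_iff]
      constructor
      · rintro ⟨q, hq, hd⟩
        rw [(Nat.prime_dvd_prime_iff_eq hp (hSp q hq)).1 hd]
        exact hq
      · intro h
        exact ⟨p, h, dvd_rfl⟩
    have hd0 : 0 < ∏ q ∈ S, q := Finset.prod_pos fun q hq => (hSp q hq).pos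
    refine ⟨∏ q ∈ S, q, ⟨_, by rw [mul_comm]; exact hsplit.symm⟩, ?_, ?_, ?_⟩
    · obtain ⟨q, hq⟩ := hSne
      intro h
      have h3 := Finset.dvd_prod_of_mem (fun q : ℕ => q) hq
      rw [h, Nat.dvd_one] at h3
      exact (hSp q hq).one_lt.ne' h3
    · intro p hp hpd
      exact (Finset.mem_filter.1 (hSs ((hpS p hp).1 hpd))).2
    · intro p hp hpD hp7
      have hpm : p ∈ split D := Finset.mem_filter.2 ⟨Nat.mem_primeFactors.2 ⟨hp, hpD, hD0⟩, hp7⟩
      have h3 := row hSs h2 ⟨p, hpm⟩ v hvS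
      rw [hv] at h3
      have hquot : D / ∏ q ∈ S, q = ∏ q ∈ D.primeFactors \ S, q := by
        conv_lhs => rw [← hsplit]
        exact Nat.mul_div_cancel _ hd0
      constructor
      · intro hnd
        rw [if_neg (fun h => hnd ((hpS p hp).2 h))] at h3
        exact val_iff.1 h3.symm
      · intro hd
        rw [if_pos ((hpS p hp).1 hd)] at h3
        rw [hquot]
        exact four_iff.1 h3.symm
  · rintro ⟨d, hdD, hd1, hd7, hrow⟩
    have hd0 : d ≠ 0 := ne_zero_of_dvd_ne_zero hD0 hdD
    set S : Finset ℕ := d.primeFactors with hS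
    have hSs : S ⊆ split D := by
      intro p hp
      have h3 := Nat.mem_primeFactors.1 hp
      exact Finset.mem_filter.2 ⟨Nat.mem_primeFactors.2 ⟨h3.1, h3.2.1.trans hdD, hD0⟩,
        hd7 p h3.1 h3.2.1⟩
    have hdsq : Squarefree d := hsq.squarefree_of_dvd hdD
    have hprodS : ∏ q ∈ S, q = d := Nat.prod_primeFactors_of_squarefree hdsq
    have hprod : ∏ q ∈ D.primeFactors, q = D := Nat.prod_primeFactors_of_squarefree hsq
    have hsplit : (∏ q ∈ D.primeFactors \ S, q) * d = D := by
      rw [← hprodS, hS, Finset.prod_sdiff (hSs.trans hpf), hprod]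
    have hquot : D / d = ∏ q ∈ D.primeFactors \ S, q := by
      conv_lhs => rw [← hsplit]
      exact Nat.mul_div_cancel _ (Nat.pos_of_ne_zero hd0)
    refine ⟨fun j => if j.1 ∈ S then 1 else 0, ?_, ?_⟩
    · obtain ⟨p, hp, hpd⟩ := Nat.exists_prime_and_dvd hd1
      have hpS : p ∈ S := Nat.mem_primeFactors.2 ⟨hp, hpd, hd0⟩
      intro h
      have h3 := congrFun h ⟨p, hSs hpS⟩
      simp only [hpS, if_true, Pi.zero_apply] at h3
      exact one_ne_zero h3
    · funext i
      rw [row hSs h2 i _ fun j => rfl, Pi.zero_apply]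
      have h3 := Finset.mem_filter.1 i.2
      have hip := Nat.prime_of_mem_primeFactors h3.1
      obtain ⟨h4, h5⟩ := hrow i.1 hip (Nat.dvd_of_mem_primeFactors h3.1) h3.2
      by_cases hi : i.1 ∈ S
      · rw [if_pos hi, ← hquot]
        exact four_iff.2 (h5 (Nat.dvd_of_mem_primeFactors hi))
      · rw [if_neg hi, hprodS]
        refine val_iff.2 (h4 fun h => hi ?_)
        exact Nat.mem_primeFactors.2 ⟨hip, h, hd0⟩

end Pool.Agent.T9h61.QA
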