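import Mathlib

/-!
# A rational point of large height on `y² = x³ + A x + B` generates infinitely many rational points
-/

set_option autoImplicit false

namespace Pool.Agent.T9h61.QA

/-- the rational points of `y² = x³ + A x + B` -/
def SS (A B : ℤ) : Set (ℚ × ℚ) := {p : ℚ × ℚ | p.2 ^ 2 = p.1 ^ 3 + A * p.1 + B}

/-- the height bound -/
def KK (A B : ℤ) : ℤ :=
  15 + 21 * (A * A) + 27 * (B * B) +
  (4 * (4 * ((A * A) * (A * A) * (A * A)) + 27 * (B * B)) + 4 * ((A * A) * (B * B)) +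
    4 * (A * A) * (3 * ((A * A) * (A * A) * (A * A)) + 22 * (B * B)) +
    12 * (B * B) * ((A * A) * (A * A) * (A * A) + 8 * (B * B)) +
    (A * A) * (B * B) + (A * A) * (5 * ((A * A) * (A * A) * (A * A)) + 32 * (B * B)) +
    2 * (B * B) * (13 * ((A * A) * (A * A) * (A * A)) + 96 * (B * B)) +
    3 * (A * A) * ((A * A) * (A * A) * (A * A) + 8 * (B * B)))

theorem abs_le_sq (A : ℤ) : |A| ≤ A * A := by
  rcases eq_or_ne A 0 with h | h
  · rw [h]; simp
  · have h1 : 1 ≤ |A| := Int.one_le_abs h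
    rw [← abs_mul_abs_self A]
    nlinarith

theorem KK_pos (A B : ℤ) : 15 ≤ KK A B := by
  unfold KK
  have ha : 0 ≤ A * A := mul_self_nonneg A
  have hb : 0 ≤ B * B := mul_self_nonneg B
  have h3 : 0 ≤ (A * A) * (A * A) * (A * A) := by positivity
  have h4 : 0 ≤ (4 * (4 * ((A * A) * (A * A) * (A * A)) + 27 * (B * B)) + 4 * ((A * A) * (B * B)) +
    4 * (A * A) * (3 * ((A * A) * (A * A) * (A * A)) + 22 * (B * B)) +
    12 * (B * B) * ((A * A) * (A * A) * (A * A) + 8 * (B * B)) +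
    (A * A) * (B * B) + (A * A) * (5 * ((A * A) * (A * A) * (A * A)) + 32 * (B * B)) +
    2 * (B * B) * (13 * ((A * A) * (A * A) * (A * A)) + 96 * (B * B)) +
    3 * (A * A) * ((A * A) * (A * A) * (A * A) + 8 * (B * B))) := by positivity
  linarith

/-- the bound for a cubic form -/
theorem cubic_le {H X Z : ℤ} (hX : |X| ≤ H) (hZ : |Z| ≤ H) (c0 c1 c2 c3 : ℤ) :
    |c0 * X ^ 3 + c1 * (X ^ 2 * Z) + c2 * (X * Z ^ 2) + c3 * Z ^ 3| ≤
      (|c0| + |c1| + |c2| + |c3|) * H ^ 3 := by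
  have hH : 0 ≤ H := (abs_nonneg X).trans hX
  have e0 : |X ^ 3| ≤ H ^ 3 := by
    rw [abs_pow]; exact pow_le_pow_left₀ (abs_nonneg _) hX 3
  have e3 : |Z ^ 3| ≤ H ^ 3 := by
    rw [abs_pow]; exact pow_le_pow_left₀ (abs_nonneg _) hZ 3
  have e1 : |X ^ 2 * Z| ≤ H ^ 3 := by
    rw [abs_mul, abs_pow]
    calc |X| ^ 2 * |Z| ≤ H ^ 2 * H :=
          mul_le_mul (pow_le_pow_left₀ (abs_nonneg _) hX 2) hZ (abs_nonneg _) (by positivity)
      _ = H ^ 3 := by ring
  have e2 : |X * Z ^ 2| ≤ H ^ 3 := by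
    rw [abs_mul, abs_pow]
    calc |X| * |Z| ^ 2 ≤ H * H ^ 2 :=
          mul_le_mul hX (pow_le_pow_left₀ (abs_nonneg _) hZ 2) (by positivity) hH
      _ = H ^ 3 := by ring
  calc |c0 * X ^ 3 + c1 * (X ^ 2 * Z) + c2 * (X * Z ^ 2) + c3 * Z ^ 3|
      ≤ |c0 * X ^ 3| + |c1 * (X ^ 2 * Z)| + |c2 * (X * Z ^ 2)| + |c3 * Z ^ 3| := by
        refine (abs_add_le _ _).trans ?_
        gcongr
        refine (abs_add_le _ _).trans ?_
        gcongr
        exact abs_add_le _ _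
    _ ≤ |c0| * H ^ 3 + |c1| * H ^ 3 + |c2| * H ^ 3 + |c3| * H ^ 3 := by
        have m : ∀ c t : ℤ, |t| ≤ H ^ 3 → |c * t| ≤ |c| * H ^ 3 := fun c t ht => by
          rw [abs_mul]
          exact mul_le_mul_of_nonneg_left ht (abs_nonneg c)
        exact add_le_add (add_le_add (add_le_add (m _ _ e0) (m _ _ e1)) (m _ _ e2)) (m _ _ e3)
    _ = _ := by ring

theorem coef_le (A B : ℤ) :
    (|(0:ℤ)| + |(12:ℤ)| + |(0:ℤ)| + |16 * A|) + (|(3:ℤ)| + |(0:ℤ)| + |-5 * A| + |-27 * B|) ≤ KK A B ∧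
    (|4 * (4 * A ^ 3 + 27 * B ^ 2)| + |-4 * A ^ 2 * B| + |4 * A * (3 * A ^ 3 + 22 * B ^ 2)| +
      |12 * B * (A ^ 3 + 8 * B ^ 2)|) +
    (|A ^ 2 * B| + |A * (5 * A ^ 3 + 32 * B ^ 2)| + |2 * B * (13 * A ^ 3 + 96 * B ^ 2)| +
      |-3 * A ^ 2 * (A ^ 3 + 8 * B ^ 2)|) ≤ KK A B := by
  have hA := abs_le_sq A
  have hB := abs_le_sq B
  have hA0 : 0 ≤ A * A := mul_self_nonneg A
  have hB0 : 0 ≤ B * B := mul_self_nonneg B
  have hA3 : |A ^ 3| ≤ (A * A) * (A * A) * (A * A) := by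
    rw [abs_pow]
    calc |A| ^ 3 ≤ (A * A) ^ 3 := pow_le_pow_left₀ (abs_nonneg _) hA 3
      _ = _ := by ring
  have hA2 : |A ^ 2| ≤ A * A := by rw [abs_of_nonneg (by positivity)]; exact le_of_eq (by ring)
  have hB2 : |B ^ 2| ≤ B * B := by rw [abs_of_nonneg (by positivity)]; exact le_of_eq (by ring)
  have hA6 : 0 ≤ (A * A) * (A * A) * (A * A) := by positivity
  have key : ∀ u v : ℤ, 0 ≤ u → 0 ≤ v → |u * A ^ 3 + v * B ^ 2| ≤
      u * ((A * A) * (A * A) * (A * A)) + v * (B * B) := by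
    intro u v hu hv
    refine (abs_add_le _ _).trans ?_
    rw [abs_mul, abs_mul, abs_of_nonneg hu, abs_of_nonneg hv]
    gcongr
  have k1 := key 4 27 (by norm_num) (by norm_num)
  have k2 := key 3 22 (by norm_num) (by norm_num)
  have k3 := key 1 8 (by norm_num) (by norm_num)
  have k4 := key 5 32 (by norm_num) (by norm_num)
  have k5 := key 13 96 (by norm_num) (by norm_num)
  rw [one_mul, one_mul] at k3
  have h4 : 0 ≤ (4 * (4 * ((A * A) * (A * A) * (A * A)) + 27 * (B * B)) + 4 * ((A * A) * (B * B)) +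
    4 * (A * A) * (3 * ((A * A) * (A * A) * (A * A)) + 22 * (B * B)) +
    12 * (B * B) * ((A * A) * (A * A) * (A * A) + 8 * (B * B)) +
    (A * A) * (B * B) + (A * A) * (5 * ((A * A) * (A * A) * (A * A)) + 32 * (B * B)) +
    2 * (B * B) * (13 * ((A * A) * (A * A) * (A * A)) + 96 * (B * B)) +
    3 * (A * A) * ((A * A) * (A * A) * (A * A) + 8 * (B * B))) := by positivity
  constructor
  · unfold KK
    have e1 : |16 * A| = 16 * |A| := by rw [abs_mul]; norm_num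
    have e2 : |-5 * A| = 5 * |A| := by rw [abs_mul]; norm_num
    have e3 : |-27 * B| = 27 * |B| := by rw [abs_mul]; norm_num
    rw [e1, e2, e3]
    norm_num
    linarith
  · unfold KK
    have e1 : |4 * (4 * A ^ 3 + 27 * B ^ 2)| ≤
        4 * (4 * ((A * A) * (A * A) * (A * A)) + 27 * (B * B)) := by
      rw [abs_mul, abs_of_nonneg (show (0:ℤ) ≤ 4 by norm_num)]
      linarith
    have e2 : |-4 * A ^ 2 * B| ≤ 4 * ((A * A) * (B * B)) := by
      have : |-4 * A ^ 2 * B| = 4 * (|A ^ 2| * |B|) := by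
        rw [abs_mul, abs_mul]; norm_num; ring
      rw [this]
      have := mul_le_mul hA2 hB (abs_nonneg _) hA0
      linarith
    have e3 : |4 * A * (3 * A ^ 3 + 22 * B ^ 2)| ≤
        4 * (A * A) * (3 * ((A * A) * (A * A) * (A * A)) + 22 * (B * B)) := by
      rw [abs_mul, abs_mul, abs_of_nonneg (show (0:ℤ) ≤ 4 by norm_num)]
      exact mul_le_mul (by linarith) k2 (abs_nonneg _) (by positivity)
    have e4 : |12 * B * (A ^ 3 + 8 * B ^ 2)| ≤
        12 * (B * B) * ((A * A) * (A * A) * (A * A) + 8 * (B * B)) := by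
      rw [abs_mul, abs_mul, abs_of_nonneg (show (0:ℤ) ≤ 12 by norm_num)]
      exact mul_le_mul (by linarith) k3 (abs_nonneg _) (by positivity)
    have e5 : |A ^ 2 * B| ≤ (A * A) * (B * B) := by
      rw [abs_mul]
      exact mul_le_mul hA2 hB (abs_nonneg _) hA0
    have e6 : |A * (5 * A ^ 3 + 32 * B ^ 2)| ≤
        (A * A) * (5 * ((A * A) * (A * A) * (A * A)) + 32 * (B * B)) := by
      rw [abs_mul]
      exact mul_le_mul hA k4 (abs_nonneg _) hA0
    have e7 : |2 * B * (13 * A ^ 3 + 96 * B ^ 2)| ≤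
        2 * (B * B) * (13 * ((A * A) * (A * A) * (A * A)) + 96 * (B * B)) := by
      rw [abs_mul, abs_mul, abs_of_nonneg (show (0:ℤ) ≤ 2 by norm_num)]
      exact mul_le_mul (by linarith) k5 (abs_nonneg _) (by positivity)
    have e8 : |-3 * A ^ 2 * (A ^ 3 + 8 * B ^ 2)| ≤
        3 * (A * A) * ((A * A) * (A * A) * (A * A) + 8 * (B * B)) := by
      have : |-3 * A ^ 2 * (A ^ 3 + 8 * B ^ 2)| = 3 * |A ^ 2| * |A ^ 3 + 8 * B ^ 2| := by
        rw [abs_mul, abs_mul]; norm_num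
      rw [this]
      exact mul_le_mul (by linarith) k3 (abs_nonneg _) (by positivity)
    linarith

/-- numerator of the doubling formula -/
def FF (A B X Z : ℤ) : ℤ := X ^ 4 - 2 * A * X ^ 2 * Z ^ 2 - 8 * B * X * Z ^ 3 + A ^ 2 * Z ^ 4

/-- denominator of the doubling formula -/
def GG (A B X Z : ℤ) : ℤ := 4 * Z * (X ^ 3 + A * X * Z ^ 2 + B * Z ^ 3)

theorem id1 (A B X Z : ℤ) :
    (0 * X ^ 3 + 12 * (X ^ 2 * Z) + 0 * (X * Z ^ 2) + 16 * A * Z ^ 3) * FF A B X Z -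
      (3 * X ^ 3 + 0 * (X ^ 2 * Z) + -5 * A * (X * Z ^ 2) + -27 * B * Z ^ 3) * GG A B X Z =
      4 * (4 * A ^ 3 + 27 * B ^ 2) * Z ^ 7 := by
  unfold FF GG
  ring

theorem id2 (A B X Z : ℤ) :
    (4 * (4 * A ^ 3 + 27 * B ^ 2) * X ^ 3 + -4 * A ^ 2 * B * (X ^ 2 * Z) +
      4 * A * (3 * A ^ 3 + 22 * B ^ 2) * (X * Z ^ 2) + 12 * B * (A ^ 3 + 8 * B ^ 2) * Z ^ 3) *
      FF A B X Z +
    (A ^ 2 * B * X ^ 3 + A * (5 * A ^ 3 + 32 * B ^ 2) * (X ^ 2 * Z) +
      2 * B * (13 * A ^ 3 + 96 * B ^ 2) * (X * Z ^ 2) +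
      -3 * A ^ 2 * (A ^ 3 + 8 * B ^ 2) * Z ^ 3) * GG A B X Z =
      4 * (4 * A ^ 3 + 27 * B ^ 2) * X ^ 7 := by
  unfold FF GG
  ring

/-- the resultant inequality -/
theorem res_le {A B X Z H M : ℤ} (hX : |X| ≤ H) (hZ : |Z| ≤ H) (hH : H = |X| ∨ H = |Z|)
    (hF : |FF A B X Z| ≤ M) (hG : |GG A B X Z| ≤ M) :
    |4 * (4 * A ^ 3 + 27 * B ^ 2)| * H ^ 7 ≤ KK A B * H ^ 3 * M := by
  have hH0 : 0 ≤ H := (abs_nonneg X).trans hX
  have hM0 : 0 ≤ M := (abs_nonneg _).trans hF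
  obtain ⟨c1, c2⟩ := coef_le A B
  rcases hH with hH | hH
  · have h1 := id2 A B X Z
    have h2 := cubic_le hX hZ (4 * (4 * A ^ 3 + 27 * B ^ 2)) (-4 * A ^ 2 * B)
      (4 * A * (3 * A ^ 3 + 22 * B ^ 2)) (12 * B * (A ^ 3 + 8 * B ^ 2))
    have h3 := cubic_le hX hZ (A ^ 2 * B) (A * (5 * A ^ 3 + 32 * B ^ 2))
      (2 * B * (13 * A ^ 3 + 96 * B ^ 2)) (-3 * A ^ 2 * (A ^ 3 + 8 * B ^ 2))
    set u := 4 * (4 * A ^ 3 + 27 * B ^ 2) * X ^ 3 + -4 * A ^ 2 * B * (X ^ 2 * Z) +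
      4 * A * (3 * A ^ 3 + 22 * B ^ 2) * (X * Z ^ 2) + 12 * B * (A ^ 3 + 8 * B ^ 2) * Z ^ 3
    set v := A ^ 2 * B * X ^ 3 + A * (5 * A ^ 3 + 32 * B ^ 2) * (X ^ 2 * Z) +
      2 * B * (13 * A ^ 3 + 96 * B ^ 2) * (X * Z ^ 2) +
      -3 * A ^ 2 * (A ^ 3 + 8 * B ^ 2) * Z ^ 3
    have h4 : |4 * (4 * A ^ 3 + 27 * B ^ 2)| * H ^ 7 = |u * FF A B X Z + v * GG A B X Z| := by
      rw [h1, abs_mul (4 * (4 * A ^ 3 + 27 * B ^ 2)), abs_pow, hH]
    rw [h4]
    calc |u * FF A B X Z + v * GG A B X Z| ≤ |u| * |FF A B X Z| + |v| * |GG A B X Z| := by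
          rw [← abs_mul, ← abs_mul]; exact abs_add_le _ _
      _ ≤ |u| * M + |v| * M := by gcongr
      _ = (|u| + |v|) * M := by ring
      _ ≤ (KK A B * H ^ 3) * M := by
          refine mul_le_mul_of_nonneg_right ?_ hM0
          refine (add_le_add h2 h3).trans ?_
          rw [← add_mul]
          exact mul_le_mul_of_nonneg_right c2 (by positivity)
  · have h1 := id1 A B X Z
    have h2 := cubic_le hX hZ 0 12 0 (16 * A)
    have h3 := cubic_le hX hZ 3 0 (-5 * A) (-27 * B)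
    set u := 0 * X ^ 3 + 12 * (X ^ 2 * Z) + 0 * (X * Z ^ 2) + 16 * A * Z ^ 3
    set v := 3 * X ^ 3 + 0 * (X ^ 2 * Z) + -5 * A * (X * Z ^ 2) + -27 * B * Z ^ 3
    have h4 : |4 * (4 * A ^ 3 + 27 * B ^ 2)| * H ^ 7 = |u * FF A B X Z - v * GG A B X Z| := by
      rw [h1, abs_mul (4 * (4 * A ^ 3 + 27 * B ^ 2)), abs_pow, hH]
    rw [h4]
    calc |u * FF A B X Z - v * GG A B X Z| ≤ |u| * |FF A B X Z| + |v| * |GG A B X Z| := by
          rw [← abs_mul, ← abs_mul]; exact abs_sub _ _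
      _ ≤ |u| * M + |v| * M := by gcongr
      _ = (|u| + |v|) * M := by ring
      _ ≤ (KK A B * H ^ 3) * M := by
          refine mul_le_mul_of_nonneg_right ?_ hM0
          refine (add_le_add h2 h3).trans ?_
          rw [← add_mul]
          exact mul_le_mul_of_nonneg_right c1 (by positivity)

/-- a common divisor of `F` and `G` divides `4 (4 A³ + 27 B²)` -/
theorem dvd_res {A B X Z g : ℤ} (hc : IsCoprime X Z) (hF : g ∣ FF A B X Z) (hG : g ∣ GG A B X Z) :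
    g ∣ 4 * (4 * A ^ 3 + 27 * B ^ 2) := by
  have h1 : g ∣ 4 * (4 * A ^ 3 + 27 * B ^ 2) * Z ^ 7 := by
    rw [← id1 A B X Z]
    exact dvd_sub (hF.mul_left _) (hG.mul_left _)
  have h2 : g ∣ 4 * (4 * A ^ 3 + 27 * B ^ 2) * X ^ 7 := by
    rw [← id2 A B X Z]
    exact dvd_add (hF.mul_left _) (hG.mul_left _)
  obtain ⟨u, v, huv⟩ := (hc.pow (m := 7) (n := 7))
  have e : 4 * (4 * A ^ 3 + 27 * B ^ 2) = u * (4 * (4 * A ^ 3 + 27 * B ^ 2) * X ^ 7) +
      v * (4 * (4 * A ^ 3 + 27 * B ^ 2) * Z ^ 7) := by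
    linear_combination (-(4 * (4 * A ^ 3 + 27 * B ^ 2))) * huv
  rw [e]
  exact dvd_add (h2.mul_left _) (h1.mul_left _)

/-- the height of a rational number -/
def ht (x : ℚ) : ℤ := max |x.num| x.den

theorem ht_pos (x : ℚ) : 1 ≤ ht x := by
  unfold ht
  have : (1 : ℤ) ≤ x.den := by exact_mod_cast x.pos
  exact this.trans (le_max_right _ _)

/-- doubling increases a large height -/
theorem dbl {A B : ℤ} (hD : 4 * A ^ 3 + 27 * B ^ 2 ≠ 0) {x y : ℚ} (h : (x, y) ∈ SS A B)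
    (hK : KK A B < ht x) : ∃ x' y' : ℚ, (x', y') ∈ SS A B ∧ ht x < ht x' := by
  have h : y ^ 2 = x ^ 3 + A * x + B := h
  set X := x.num with hXd
  set Z : ℤ := (x.den : ℤ) with hZd
  set H := ht x with hHd
  have hHX : |X| ≤ H := le_max_left _ _
  have hZpos : 0 < Z := by rw [hZd]; exact_mod_cast x.pos
  have hHZ : |Z| ≤ H := by rw [abs_of_pos hZpos]; exact le_max_right _ _
  have hH : H = |X| ∨ H = |Z| := by
    rw [abs_of_pos hZpos]
    exact max_choice _ _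
  have hH1 : 1 ≤ H := ht_pos x
  have hK15 := KK_pos A B
  have hcop : IsCoprime X Z := by
    rw [Int.isCoprime_iff_nat_coprime]
    have := x.reduced
    rw [hZd, Int.natAbs_natCast]
    exact this
  set δ := |4 * (4 * A ^ 3 + 27 * B ^ 2)| with hδ
  have hδ0 : 0 < δ := abs_pos.2 (mul_ne_zero (by norm_num) hD)
  -- main estimate
  have main : ∀ g n e : ℤ, FF A B X Z = n * g → GG A B X Z = e * g → ∀ H' : ℤ, |n| ≤ H' → |e| ≤ H' →
      H < H' := by
    intro g n e hF hG H' hn he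
    have hg : g ∣ 4 * (4 * A ^ 3 + 27 * B ^ 2) :=
      dvd_res hcop ⟨n, by rw [hF]; ring⟩ ⟨e, by rw [hG]; ring⟩
    have hg' : |g| ≤ δ := by
      refine Int.le_of_dvd hδ0 ?_
      rw [hδ, abs_dvd_abs]
      exact hg
    have hH'0 : 0 ≤ H' := (abs_nonneg _).trans hn
    have hMF : |FF A B X Z| ≤ δ * H' := by
      rw [hF, abs_mul, mul_comm]
      exact mul_le_mul hg' hn (abs_nonneg _) hδ0.le
    have hMG : |GG A B X Z| ≤ δ * H' := by
      rw [hG, abs_mul, mul_comm]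
      exact mul_le_mul hg' he (abs_nonneg _) hδ0.le
    have h1 := res_le hHX hHZ hH hMF hMG
    have h2 : (δ * H ^ 3) * H ^ 4 ≤ (δ * H ^ 3) * (KK A B * H') := by
      calc (δ * H ^ 3) * H ^ 4 = δ * H ^ 7 := by ring
        _ ≤ KK A B * H ^ 3 * (δ * H') := h1
        _ = _ := by ring
    have h3 : H ^ 4 ≤ KK A B * H' := le_of_mul_le_mul_left h2 (by positivity)
    by_contra hcon
    push Not at hcon
    have h4 : KK A B * H' ≤ KK A B * H := mul_le_mul_of_nonneg_left hcon (by linarith)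
    have h5 : KK A B * H < H * H := mul_lt_mul_of_pos_right hK (by linarith)
    have h6 : H * H ≤ H ^ 4 := by
      have : (1 : ℤ) ≤ H ^ 2 := one_le_pow₀ hH1
      nlinarith
    linarith
  have hZq : (Z : ℚ) ≠ 0 := by exact_mod_cast hZpos.ne'
  have hxq : x = (X : ℚ) / Z := by
    rw [hXd, hZd, Int.cast_natCast]
    exact (Rat.num_div_den x).symm
  have hy : y ≠ 0 := by
    intro hy
    rw [hy] at h
    have hG : GG A B X Z = 0 := by
      have h1 : (X : ℚ) ^ 3 + A * X * Z ^ 2 + B * Z ^ 3 = 0 := by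
        rw [hxq] at h
        field_simp at h
        linear_combination -h
      have h2 : X ^ 3 + A * X * Z ^ 2 + B * Z ^ 3 = 0 := by exact_mod_cast h1
      unfold GG
      rw [h2, mul_zero]
    have h3 := main (FF A B X Z) 1 0 (by ring) (by rw [hG]; ring) 1 (by norm_num) (by norm_num)
    linarith
  set l : ℚ := (3 * x ^ 2 + A) / (2 * y) with hl
  have hly : 2 * y * l = 3 * x ^ 2 + A := by
    rw [hl]
    field_simp
  set x' : ℚ := l ^ 2 - 2 * x with hx'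
  refine ⟨x', l * (x - x') - y, ?_, ?_⟩
  · show (l * (x - x') - y) ^ 2 = x' ^ 3 + A * x' + B
    rw [hx']
    linear_combination h + (l ^ 2 - 3 * x) * hly
  · have h1 : x' * (GG A B X Z : ℚ) = FF A B X Z := by
      have e1 : (GG A B X Z : ℚ) = Z ^ 4 * (4 * y ^ 2) := by
        unfold GG
        push_cast
        rw [h, hxq]
        field_simp
      have e2 : (FF A B X Z : ℚ) = Z ^ 4 * (x ^ 4 - 2 * A * x ^ 2 - 8 * B * x + A ^ 2) := by
        unfold FF
        push_cast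
        rw [hxq]
        field_simp
      rw [e1, e2, hx']
      have e3 : (l ^ 2 - 2 * x) * (4 * y ^ 2) = x ^ 4 - 2 * A * x ^ 2 - 8 * B * x + A ^ 2 := by
        have : (l ^ 2 - 2 * x) * (4 * y ^ 2) = (2 * y * l) ^ 2 - 8 * x * y ^ 2 := by ring
        rw [this, hly, h]
        ring
      rw [← e3]
      ring
    have h2 : x'.num * GG A B X Z = FF A B X Z * x'.den := by
      have hd : (x'.den : ℚ) ≠ 0 := by exact_mod_cast x'.den_nz
      have h3 : x' = (x'.num : ℚ) / x'.den := (Rat.num_div_den x').symm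
      rw [h3] at h1
      have h4 : (x'.num : ℚ) * GG A B X Z = FF A B X Z * x'.den := by
        field_simp at h1
        linear_combination h1
      exact_mod_cast h4
    have hc' : IsCoprime (x'.den : ℤ) x'.num := by
      rw [Int.isCoprime_iff_nat_coprime, Int.natAbs_natCast]
      exact x'.reduced.symm
    obtain ⟨g, hg⟩ : (x'.den : ℤ) ∣ GG A B X Z := by
      refine hc'.dvd_of_dvd_mul_left ?_
      rw [h2]
      exact dvd_mul_left _ _
    have hd0 : (x'.den : ℤ) ≠ 0 := by exact_mod_cast x'.den_nz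
    have hF : FF A B X Z = x'.num * g := by
      rw [hg] at h2
      have : (FF A B X Z) * x'.den = (x'.num * g) * x'.den := by
        rw [← h2]; ring
      exact mul_right_cancel₀ hd0 this
    refine main g x'.num x'.den hF hg (ht x') (le_max_left _ _) ?_
    rw [abs_of_pos (by exact_mod_cast x'.pos)]
    exact le_max_right _ _

/-- **infinitely many points** -/
theorem infinite_of_ht {A B : ℤ} (hD : 4 * A ^ 3 + 27 * B ^ 2 ≠ 0) {x y : ℚ} (h : (x, y) ∈ SS A B)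
    (hK : KK A B < ht x) : (SS A B).Infinite := by
  intro hfin
  have h1 : ((SS A B) ∩ {p | KK A B < ht p.1}).Finite := hfin.subset Set.inter_subset_left
  have h2 : ((SS A B) ∩ {p | KK A B < ht p.1}).Nonempty := ⟨(x, y), h, hK⟩
  obtain ⟨p, hp, hmax⟩ := Set.exists_max_image _ (fun p : ℚ × ℚ => ht p.1) h1 h2
  obtain ⟨x', y', h3, h4⟩ := dbl hD (x := p.1) (y := p.2) hp.1 hp.2
  have h5 : KK A B < ht x' := lt_trans hp.2 h4
  have := hmax (x', y') ⟨h3, h5⟩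
  exact absurd h4 (not_lt.2 this)

/-- if there are infinitely many points, then there are points of large height -/
theorem exists_ht {A B : ℤ} (h : (SS A B).Infinite) (K : ℤ) : ∃ x y : ℚ, (x, y) ∈ SS A B ∧
    K < ht x := by
  by_contra hcon
  push Not at hcon
  apply h
  -- the x-coordinates lie in a finite set
  set T : Set ℚ := (fun q : ℤ × ℤ => (q.1 : ℚ) / q.2) '' (Set.Icc (-K) K ×ˢ Set.Icc (-K) K) with hT
  have hTf : T.Finite := ((Set.finite_Icc _ _).prod (Set.finite_Icc _ _)).image _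
  have hTx : ∀ p ∈ SS A B, p.1 ∈ T := by
    intro p hp
    have h1 := hcon p.1 p.2 hp
    have h2 : |p.1.num| ≤ K := (le_max_left _ _).trans h1
    have h3 : (p.1.den : ℤ) ≤ K := (le_max_right _ _).trans h1
    have h4 : (0 : ℤ) ≤ p.1.den := by exact_mod_cast (Nat.zero_le _)
    refine ⟨(p.1.num, p.1.den), ⟨abs_le.1 h2, ?_, h3⟩, ?_⟩
    · show -K ≤ (p.1.den : ℤ)
      linarith
    · show (p.1.num : ℚ) / ((p.1.den : ℤ) : ℚ) = p.1
      rw [Int.cast_natCast]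
      exact Rat.num_div_den p.1
  have hfib : ∀ x : ℚ, {p : ℚ × ℚ | p ∈ SS A B ∧ p.1 = x}.Finite := by
    intro x
    by_cases he : ∃ y, (x, y) ∈ SS A B
    · obtain ⟨y, hy⟩ := he
      refine (Set.toFinite {(x, y), (x, -y)}).subset ?_
      rintro ⟨a, b⟩ ⟨h1, h2⟩
      have h2 : a = x := h2
      subst h2
      have h1 : b ^ 2 = a ^ 3 + A * a + B := h1
      have hy : y ^ 2 = a ^ 3 + A * a + B := hy
      rcases sq_eq_sq_iff_eq_or_eq_neg.1 (h1.trans hy.symm) with h3 | h3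
      · left; rw [h3]
      · right; rw [h3]; rfl
    · refine Set.finite_empty.subset ?_
      rintro ⟨a, b⟩ ⟨h1, h2⟩
      have h2 : a = x := h2
      subst h2
      exact he ⟨b, h1⟩
  have : SS A B ⊆ ⋃ x ∈ T, {p : ℚ × ℚ | p ∈ SS A B ∧ p.1 = x} := by
    intro p hp
    simp only [Set.mem_iUnion]
    exact ⟨p.1, hTx p hp, hp, rfl⟩
  exact (hTf.biUnion fun x _ => hfib x).subset this

/-- the degenerate case -/
theorem infinite_degenerate {A B : ℤ} (hD : 4 * A ^ 3 + 27 * B ^ 2 = 0) : (SS A B).Infinite := by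
  obtain ⟨r, h1, h2⟩ : ∃ r : ℚ, (A : ℚ) = -3 * r ^ 2 ∧ (B : ℚ) = 2 * r ^ 3 := by
    have hq : 4 * (A : ℚ) ^ 3 + 27 * (B : ℚ) ^ 2 = 0 := by exact_mod_cast hD
    by_cases hA : (A : ℚ) = 0
    · have hB : (B : ℚ) = 0 := by
        rw [hA] at hq
        have : (B : ℚ) ^ 2 = 0 := by linarith
        exact pow_eq_zero_iff (two_ne_zero) |>.1 this
      exact ⟨0, by rw [hA]; ring, by rw [hB]; ring⟩
    · refine ⟨-3 * B / (2 * A), ?_, ?_⟩
      · field_simp
        linear_combination hq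
      · field_simp
        linear_combination (B : ℚ) * hq
  refine Set.infinite_of_injective_forall_mem (f := fun t : ℕ =>
    (((t : ℚ) ^ 2 - 2 * r, (t : ℚ) * ((t : ℚ) ^ 2 - 2 * r - r)) : ℚ × ℚ)) ?_ ?_
  · intro s t hst
    simp only [Prod.mk.injEq] at hst
    have h3 : (s : ℚ) ^ 2 = (t : ℚ) ^ 2 := by linarith [hst.1]
    have h4 : (s : ℚ) = t := by
      rcases sq_eq_sq_iff_eq_or_eq_neg.1 h3 with h | h
      · exact h
      · have hs : (0 : ℚ) ≤ s := Nat.cast_nonneg s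
        have ht : (0 : ℚ) ≤ t := Nat.cast_nonneg t
        linarith
    exact_mod_cast h4
  · intro t
    show ((t : ℚ) * ((t : ℚ) ^ 2 - 2 * r - r)) ^ 2 =
      ((t : ℚ) ^ 2 - 2 * r) ^ 3 + A * ((t : ℚ) ^ 2 - 2 * r) + B
    rw [h1, h2]
    ring

end Pool.Agent.T9h61.QA
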