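import Pool.Agent.R395.CT.Comp
import Pool.Agent.T9h61.QA.Dbl
import Pool.Agent.T9h61.QA.Crit

/-!
# The partial algorithm for the curves `d y² = e x³ + a x² + b x + c`
-/

set_option autoImplicit false

namespace Pool.Agent.T9h61.QA

open Pool.Agent.Helper446 Pool.Agent.W960.GA
open Pool.Agent.R395.CT (ciadd cisub cimul cineg cicast cp_dvd cp_or cp_prime)

/-- the polynomial `d y² - (e x³ + a x² + b x + c)` -/
def poly (d e a b c : ℤ) : List (List ℤ) := [[-c, 0, d], [-b], [-a], [-e]]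

theorem poly_inj {d e a b c d' e' a' b' c' : ℤ} (h : poly d e a b c = poly d' e' a' b' c') :
    d = d' ∧ e = e' ∧ a = a' ∧ b = b' ∧ c = c' := by
  unfold poly at h
  simp only [List.cons.injEq, neg_inj, and_true, true_and] at h
  obtain ⟨⟨h1, h2⟩, h3, h4, h5⟩ := h
  exact ⟨h2, h5, h4, h3, h1⟩

/-- the rational zeros -/
def Sol (d e a b c : ℤ) : Set (ℚ × ℚ) :=
  {p : ℚ × ℚ | d * p.2 ^ 2 = e * p.1 ^ 3 + a * p.1 ^ 2 + b * p.1 + c}

abbrev T5 : Type := ℤ × ℤ × ℤ × ℤ × ℤ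

/-- coefficient of the short model; `t = (d, e, a, b, c)` -/
def shA (t : T5) : ℤ :=
  81 * (t.2.2.2.1 * (t.1 * t.1) * t.2.1) - 27 * ((t.2.2.1 * t.1) * (t.2.2.1 * t.1))

/-- coefficient of the short model -/
def shB (t : T5) : ℤ :=
  729 * (t.2.2.2.2 * (t.1 * t.1 * t.1) * (t.2.1 * t.2.1)) -
    243 * ((t.2.2.1 * t.1) * (t.2.2.2.1 * (t.1 * t.1) * t.2.1)) +
    54 * ((t.2.2.1 * t.1) * (t.2.2.1 * t.1) * (t.2.2.1 * t.1))

/-- the discriminant of the short model, up to the sign -/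
def dsc (t : T5) : ℤ := 4 * (shA t * shA t * shA t) + 27 * (shB t * shB t)

theorem sol_short {d e a b c : ℤ} (hd : d ≠ 0) (he : e ≠ 0) :
    SS (shA (d, e, a, b, c)) (shB (d, e, a, b, c)) =
      (fun p : ℚ × ℚ => ((9 * d * e * p.1 + 3 * a * d : ℚ), (27 * d ^ 2 * e * p.2 : ℚ))) ''
        Sol d e a b c := by
  have hdq : (d : ℚ) ≠ 0 := by exact_mod_cast hd
  have heq : (e : ℚ) ≠ 0 := by exact_mod_cast he
  ext ⟨u, v⟩
  constructor
  · intro h
    have h : v ^ 2 = u ^ 3 + (shA (d, e, a, b, c) : ℤ) * u + (shB (d, e, a, b, c) : ℤ) := h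
    unfold shA shB at h
    push_cast at h
    refine ⟨((u - 3 * a * d) / (9 * d * e), v / (27 * d ^ 2 * e)), ?_, ?_⟩
    · show (d : ℚ) * (v / (27 * d ^ 2 * e)) ^ 2 = e * ((u - 3 * a * d) / (9 * d * e)) ^ 3 +
        a * ((u - 3 * a * d) / (9 * d * e)) ^ 2 + b * ((u - 3 * a * d) / (9 * d * e)) + c
      field_simp
      linear_combination 729 * h
    · show ((9 * d * e * ((u - 3 * a * d) / (9 * d * e)) + 3 * a * d : ℚ),
        (27 * d ^ 2 * e * (v / (27 * d ^ 2 * e)) : ℚ)) = (u, v)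
      refine Prod.ext ?_ ?_
      · show (9 * d * e * ((u - 3 * a * d) / (9 * d * e)) + 3 * a * d : ℚ) = u
        field_simp
        ring
      · show (27 * d ^ 2 * e * (v / (27 * d ^ 2 * e)) : ℚ) = v
        field_simp
  · rintro ⟨⟨x, y⟩, h, h2⟩
    have h : (d : ℚ) * y ^ 2 = e * x ^ 3 + a * x ^ 2 + b * x + c := h
    simp only [Prod.mk.injEq] at h2
    obtain ⟨rfl, rfl⟩ := h2
    show (27 * d ^ 2 * e * y : ℚ) ^ 2 = (9 * d * e * x + 3 * a * d : ℚ) ^ 3 +
      (shA (d, e, a, b, c) : ℤ) * (9 * d * e * x + 3 * a * d : ℚ) + (shB (d, e, a, b, c) : ℤ)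
    unfold shA shB
    push_cast
    linear_combination (729 * (d : ℚ) ^ 3 * e ^ 2) * h

theorem sol_inf_iff {d e a b c : ℤ} (hd : d ≠ 0) (he : e ≠ 0) :
    (SS (shA (d, e, a, b, c)) (shB (d, e, a, b, c))).Infinite ↔ (Sol d e a b c).Infinite := by
  have hdq : (d : ℚ) ≠ 0 := by exact_mod_cast hd
  have heq : (e : ℚ) ≠ 0 := by exact_mod_cast he
  rw [sol_short hd he]
  refine Set.infinite_image_iff ?_
  rintro ⟨x, y⟩ - ⟨x', y'⟩ - h
  simp only [Prod.mk.injEq] at h
  obtain ⟨h1, h2⟩ := h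
  have h3 : (9 * d * e : ℚ) * x = 9 * d * e * x' := by linarith
  have h4 : (9 * d * e : ℚ) ≠ 0 := by positivity
  have h5 : (27 * d ^ 2 * e : ℚ) ≠ 0 := by positivity
  exact Prod.ext (mul_left_cancel₀ h4 h3) (mul_left_cancel₀ h5 h2)

/-- the case `d = 0` -/
theorem sol_zero {e a b c : ℤ} {x : ℚ} (h : (0 : ℚ) = e * x ^ 3 + a * x ^ 2 + b * x + c) :
    (Sol 0 e a b c).Infinite := by
  refine Set.infinite_of_injective_forall_mem (f := fun n : ℕ => ((x, (n : ℚ)) : ℚ × ℚ)) ?_ ?_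
  · intro m n hmn
    simp only [Prod.mk.injEq, true_and] at hmn
    exact_mod_cast hmn
  · intro n
    show ((0 : ℤ) : ℚ) * (n : ℚ) ^ 2 = e * x ^ 3 + a * x ^ 2 + b * x + c
    rw [← h]
    push_cast
    ring

/-! ### the two searches -/

/-- `(p, q, r, s, u, v)` -/
abbrev W6 : Type := ℤ × ℕ × ℤ × ℤ × ℤ × ℤ

/-- the value of the cubic, cleared of denominators -/
def cub (t : T5) (p q : ℤ) : ℤ :=
  t.2.1 * (p * p * p) + t.2.2.1 * (p * p * q) + t.2.2.2.1 * (p * q * q) + t.2.2.2.2 * (q * q * q)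

/-- there are infinitely many zeros: the three cases -/
def Wit (t : T5) (w : W6) : Prop :=
  (t.1 = 0 ∧ ¬ w.2.1 = 0 ∧ cub t w.1 w.2.1 = 0) ∨
  (¬ t.1 = 0 ∧ dsc t = 0) ∨
  (¬ t.1 = 0 ∧ ¬ dsc t = 0 ∧ ¬ w.2.1 = 0 ∧ ¬ w.2.2.2.1 = 0 ∧
    w.1 * w.2.2.2.2.1 + (w.2.1 : ℤ) * w.2.2.2.2.2 = 1 ∧
    ¬ (w.1 * w.1 + (w.2.1 : ℤ) * w.2.1 - 2 * (KK (shA t) (shB t) * KK (shA t) (shB t))).toNat = 0 ∧
    w.2.2.1 * w.2.2.1 * ((w.2.1 : ℤ) * w.2.1 * w.2.1) =
      w.2.2.2.1 * w.2.2.2.1 * (w.1 * w.1 * w.1 + shA t * (w.1 * w.2.1 * w.2.1) +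
        shB t * ((w.2.1 : ℤ) * w.2.1 * w.2.1)))

/-- there is a proof that the polynomial has infinitely many zeros -/
def PInf (L : List (List ℤ)) : Prop :=
  ∃ z : T5 × W6, ¬ z.1.2.1 = 0 ∧ L = poly z.1.1 z.1.2.1 z.1.2.2.1 z.1.2.2.2.1 z.1.2.2.2.2 ∧
    Wit z.1 z.2

/-- there is a proof that `D m² y² = x³ - 35 x - 98` has finitely many rational solutions -/
def PFin (L : List (List ℤ)) : Prop :=
  ∃ w : ℕ × ℤ, (Adm w.1 ∧ ¬ Bad w.1) ∧ ¬ w.2 = 0 ∧
    L = poly (w.1 * (w.2 * w.2)) 1 0 (-35) (-98)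

/-! ### computability -/

section

variable {α : Type} [Primcodable α]

attribute [local fun_prop] ciadd cisub cimul cineg cicast cmod cdiv

@[local fun_prop] theorem ctoNat {f : α → ℤ} (hf : Computable f) :
    Computable (fun x => (f x).toNat) :=
  Pool.Agent.Helper566.FD.J7.prim_toNat.to_comp.comp hf

@[local fun_prop] theorem cpoly {d e a b c : α → ℤ} (hd : Computable d) (he : Computable e)
    (ha : Computable a) (hb : Computable b) (hc : Computable c) :
    Computable (fun x => poly (d x) (e x) (a x) (b x) (c x)) := by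
  unfold poly
  refine Computable.list_cons.comp (Computable.list_cons.comp (by fun_prop)
    (Computable.list_cons.comp (by fun_prop) (Computable.list_cons.comp (by fun_prop)
    (Computable.const _)))) ?_
  refine Computable.list_cons.comp (Computable.list_cons.comp (by fun_prop)
    (Computable.const _)) ?_
  refine Computable.list_cons.comp (Computable.list_cons.comp (by fun_prop)
    (Computable.const _)) ?_
  exact Computable.list_cons.comp (Computable.list_cons.comp (by fun_prop)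
    (Computable.const _)) (Computable.const _)

@[local fun_prop] theorem cshA {f : α → T5} (hf : Computable f) :
    Computable (fun x => shA (f x)) := by
  unfold shA
  fun_prop

@[local fun_prop] theorem cshB {f : α → T5} (hf : Computable f) :
    Computable (fun x => shB (f x)) := by
  unfold shB
  fun_prop

@[local fun_prop] theorem cdsc {f : α → T5} (hf : Computable f) :
    Computable (fun x => dsc (f x)) := by
  unfold dsc
  fun_prop

@[local fun_prop] theorem cKK {f g : α → ℤ} (hf : Computable f) (hg : Computable g) :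
    Computable (fun x => KK (f x) (g x)) := by
  unfold KK
  fun_prop

@[local fun_prop] theorem ccub {f : α → T5} {p q : α → ℤ} (hf : Computable f) (hp : Computable p)
    (hq : Computable q) : Computable (fun x => cub (f x) (p x) (q x)) := by
  unfold cub
  fun_prop

theorem cp_Wit {f : α → T5} {g : α → W6} (hf : Computable f) (hg : Computable g) :
    ComputablePred fun x => Wit (f x) (g x) := by
  unfold Wit
  refine cp_or (cp_and (RE.cp_eq (by fun_prop) (by fun_prop)) (cp_and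
    (cp_not (RE.cp_eq (by fun_prop) (by fun_prop))) (RE.cp_eq (by fun_prop) (by fun_prop)))) ?_
  refine cp_or (cp_and (cp_not (RE.cp_eq (by fun_prop) (by fun_prop)))
    (RE.cp_eq (by fun_prop) (by fun_prop))) ?_
  refine cp_and (cp_not (RE.cp_eq (by fun_prop) (by fun_prop))) ?_
  refine cp_and (cp_not (RE.cp_eq (by fun_prop) (by fun_prop))) ?_
  refine cp_and (cp_not (RE.cp_eq (by fun_prop) (by fun_prop))) ?_
  refine cp_and (cp_not (RE.cp_eq (by fun_prop) (by fun_prop))) ?_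
  refine cp_and (RE.cp_eq (by fun_prop) (by fun_prop)) ?_
  refine cp_and (cp_not (RE.cp_eq (by fun_prop) (by fun_prop))) ?_
  exact RE.cp_eq (by fun_prop) (by fun_prop)

theorem re_PInf : REPred PInf := by
  unfold PInf
  refine RE.ex (p := fun (L : List (List ℤ)) (z : T5 × W6) => ¬ z.1.2.1 = 0 ∧
    L = poly z.1.1 z.1.2.1 z.1.2.2.1 z.1.2.2.2.1 z.1.2.2.2.2 ∧ Wit z.1 z.2) ?_
  refine RE.of_comput (cp_and (cp_not (RE.cp_eq (by fun_prop) (by fun_prop)))
    (cp_and (RE.cp_eq (by fun_prop) (by fun_prop)) (cp_Wit (by fun_prop) (by fun_prop))))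

/-- the class is decidable -/
theorem cp_Adm {f : α → ℕ} (hf : Computable f) : ComputablePred fun x => Adm (f x) := by
  have h : ComputablePred fun x => (¬ f x = 0) ∧ (∀ k < f x + 1, (k * k ∣ f x → k = 1)) ∧
      ∀ p < f x + 1, (p.Prime ∧ p ∣ f x → p % 4 = 1) := by
    refine cp_and (cp_not (RE.cp_eq (by fun_prop) (by fun_prop))) (cp_and ?_ ?_)
    · refine cp_all_lt (p := fun x k => (k * k ∣ f x → k = 1)) ?_ (by fun_prop)
      exact cp_imp (cp_dvd (by fun_prop) (by fun_prop)) (RE.cp_eq (by fun_prop) (by fun_prop))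
    · refine cp_all_lt (p := fun x p => (p.Prime ∧ p ∣ f x → p % 4 = 1)) ?_ (by fun_prop)
      exact cp_imp (cp_and (cp_prime (by fun_prop)) (cp_dvd (by fun_prop) (by fun_prop)))
        (RE.cp_eq (by fun_prop) (by fun_prop))
  refine cp_of_iff h fun x => ?_
  constructor
  · rintro ⟨h1, h2⟩
    refine ⟨h1.ne_zero, fun k _ hk => Nat.isUnit_iff.1 (h1 k hk), fun p _ hp => ?_⟩
    exact h2 p (Nat.mem_primeFactors.2 ⟨hp.1, hp.2, h1.ne_zero⟩)
  · rintro ⟨h0, h1, h2⟩
    have hpos := Nat.pos_of_ne_zero h0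
    refine ⟨fun k hk => Nat.isUnit_iff.2 ?_, fun p hp => ?_⟩
    · have h3 : k ∣ f x := (dvd_mul_right k k).trans hk
      have h4 := Nat.le_of_dvd hpos h3
      exact h1 k (by omega) hk
    · have h3 := Nat.mem_primeFactors.1 hp
      have h4 := Nat.le_of_dvd hpos h3.2.1
      exact h2 p (by omega) ⟨h3.1, h3.2.1⟩

/-! bounded forms of the residue conditions -/

def Sq7 (p : ℕ) : Prop := ∃ y < p, (y * y + 7) % p = 0
def SqM (p m : ℕ) : Prop := ∃ y < p, y * y % p = m % p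
def F4 (p : ℕ) : Prop := ∃ y < p, (y * y * (y * y) + 7) % p = 0

theorem sq7_iff {p : ℕ} (hp : p.Prime) : IsSquare (-7 : ZMod p) ↔ Sq7 p := by
  have : NeZero p := ⟨hp.ne_zero⟩
  constructor
  · rintro ⟨r, hr⟩
    refine ⟨r.val, ZMod.val_lt r, ?_⟩
    have h1 : (((r.val * r.val + 7 : ℕ)) : ZMod p) = 0 := by
      push_cast
      rw [ZMod.natCast_zmod_val, ← hr]
      ring
    exact Nat.mod_eq_zero_of_dvd ((ZMod.natCast_eq_zero_iff _ _).1 h1)
  · rintro ⟨y, -, hy⟩
    have h1 : (((y * y + 7 : ℕ)) : ZMod p) = 0 :=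
      (ZMod.natCast_eq_zero_iff _ _).2 (Nat.dvd_of_mod_eq_zero hy)
    push_cast at h1
    exact ⟨y, by linear_combination -h1⟩

theorem four_iff' {p : ℕ} (hp : p.Prime) : (∃ y : ZMod p, y ^ 4 = -7) ↔ F4 p := by
  have : NeZero p := ⟨hp.ne_zero⟩
  constructor
  · rintro ⟨r, hr⟩
    refine ⟨r.val, ZMod.val_lt r, ?_⟩
    have h1 : (((r.val * r.val * (r.val * r.val) + 7 : ℕ)) : ZMod p) = 0 := by
      push_cast
      rw [ZMod.natCast_zmod_val]
      linear_combination hr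
    exact Nat.mod_eq_zero_of_dvd ((ZMod.natCast_eq_zero_iff _ _).1 h1)
  · rintro ⟨y, -, hy⟩
    have h1 : (((y * y * (y * y) + 7 : ℕ)) : ZMod p) = 0 :=
      (ZMod.natCast_eq_zero_iff _ _).2 (Nat.dvd_of_mod_eq_zero hy)
    push_cast at h1
    exact ⟨y, by linear_combination h1⟩

theorem sqm_iff {p m : ℕ} (hp : p.Prime) : IsSquare (m : ZMod p) ↔ SqM p m := by
  have : NeZero p := ⟨hp.ne_zero⟩
  constructor
  · rintro ⟨r, hr⟩
    refine ⟨r.val, ZMod.val_lt r, ?_⟩
    have h1 : (((r.val * r.val : ℕ)) : ZMod p) = (m : ZMod p) := by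
      push_cast
      rw [ZMod.natCast_zmod_val, hr]
    exact (ZMod.natCast_eq_natCast_iff' _ _ _).1 h1
  · rintro ⟨y, -, hy⟩
    have h1 := (ZMod.natCast_eq_natCast_iff' _ _ _).2 hy
    push_cast at h1
    exact ⟨y, h1.symm⟩

/-- the bounded form of `Bad` -/
def BadB (D : ℕ) : Prop := ∃ d < D + 1, (d ∣ D ∧ ¬ d = 1 ∧
  (∀ p < D + 1, (p.Prime ∧ p ∣ d → Sq7 p)) ∧
  ∀ p < D + 1, (p.Prime ∧ p ∣ D ∧ Sq7 p → (¬ p ∣ d → SqM p d) ∧ (p ∣ d → (SqM p (D / d) ↔ F4 p))))

theorem bad_iff {D : ℕ} (hD : D ≠ 0) : Bad D ↔ BadB D := by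
  have hpos := Nat.pos_of_ne_zero hD
  constructor
  · rintro ⟨d, h1, h2, h3, h4⟩
    have h5 := Nat.le_of_dvd hpos h1
    refine ⟨d, by omega, h1, h2, fun p _ hp => (sq7_iff hp.1).1 (h3 p hp.1 hp.2), fun p _ hp => ?_⟩
    obtain ⟨h6, h7⟩ := h4 p hp.1 hp.2.1 ((sq7_iff hp.1).2 hp.2.2)
    refine ⟨fun h => (sqm_iff hp.1).1 (h6 h), fun h => ?_⟩
    rw [← sqm_iff hp.1, ← four_iff' hp.1]
    exact h7 h
  · rintro ⟨d, -, h1, h2, h3, h4⟩
    refine ⟨d, h1, h2, fun p hp hpd => ?_, fun p hp hpD h7 => ?_⟩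
    · have h5 := Nat.le_of_dvd hpos (hpd.trans h1)
      exact (sq7_iff hp).2 (h3 p (by omega) ⟨hp, hpd⟩)
    · have h5 := Nat.le_of_dvd hpos hpD
      obtain ⟨h8, h9⟩ := h4 p (by omega) ⟨hp, hpD, (sq7_iff hp).1 h7⟩
      refine ⟨fun h => (sqm_iff hp).2 (h8 h), fun h => ?_⟩
      rw [sqm_iff hp, four_iff' hp]
      exact h9 h

theorem cp_Sq7 {f : α → ℕ} (hf : Computable f) : ComputablePred fun x => Sq7 (f x) := by
  unfold Sq7
  refine cp_ex_lt (p := fun x y => (y * y + 7) % f x = 0) ?_ hf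
  exact RE.cp_eq (by fun_prop) (by fun_prop)

theorem cp_F4 {f : α → ℕ} (hf : Computable f) : ComputablePred fun x => F4 (f x) := by
  unfold F4
  refine cp_ex_lt (p := fun x y => (y * y * (y * y) + 7) % f x = 0) ?_ hf
  exact RE.cp_eq (by fun_prop) (by fun_prop)

theorem cp_SqM {f g : α → ℕ} (hf : Computable f) (hg : Computable g) :
    ComputablePred fun x => SqM (f x) (g x) := by
  unfold SqM
  refine cp_ex_lt (p := fun x y => y * y % f x = g x % f x) ?_ hf
  exact RE.cp_eq (by fun_prop) (by fun_prop)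

theorem cp_BadB {f : α → ℕ} (hf : Computable f) : ComputablePred fun x => BadB (f x) := by
  unfold BadB
  refine cp_ex_lt (p := fun x d => (d ∣ f x ∧ ¬ d = 1 ∧
    (∀ p < f x + 1, (p.Prime ∧ p ∣ d → Sq7 p)) ∧
    ∀ p < f x + 1, (p.Prime ∧ p ∣ f x ∧ Sq7 p → (¬ p ∣ d → SqM p d) ∧
      (p ∣ d → (SqM p (f x / d) ↔ F4 p))))) ?_ (by fun_prop)
  refine cp_and (cp_dvd (by fun_prop) (by fun_prop)) (cp_and
    (cp_not (RE.cp_eq (by fun_prop) (by fun_prop))) (cp_and ?_ ?_))
  · refine cp_all_lt (p := fun (x : α × ℕ) p => (p.Prime ∧ p ∣ x.2 → Sq7 p)) ?_ (by fun_prop)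
    exact cp_imp (cp_and (cp_prime (by fun_prop)) (cp_dvd (by fun_prop) (by fun_prop)))
      (cp_Sq7 (by fun_prop))
  · refine cp_all_lt (p := fun (x : α × ℕ) p => (p.Prime ∧ p ∣ f x.1 ∧ Sq7 p →
      (¬ p ∣ x.2 → SqM p x.2) ∧ (p ∣ x.2 → (SqM p (f x.1 / x.2) ↔ F4 p)))) ?_ (by fun_prop)
    refine cp_imp (cp_and (cp_prime (by fun_prop)) (cp_and (cp_dvd (by fun_prop) (by fun_prop))
      (cp_Sq7 (by fun_prop)))) (cp_and ?_ ?_)
    · exact cp_imp (cp_not (cp_dvd (by fun_prop) (by fun_prop)))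
        (cp_SqM (by fun_prop) (by fun_prop))
    · exact cp_imp (cp_dvd (by fun_prop) (by fun_prop)) (cp_iff
        (cp_SqM (by fun_prop) (by fun_prop)) (cp_F4 (by fun_prop)))

theorem cp_AB {f : α → ℕ} (hf : Computable f) :
    ComputablePred fun x => Adm (f x) ∧ ¬ Bad (f x) := by
  refine cp_of_iff (cp_and (cp_Adm hf) (cp_not (cp_BadB hf))) fun x => ?_
  refine and_congr_right fun h => ?_
  rw [bad_iff h.1.ne_zero]

theorem re_PFin : REPred PFin := by
  unfold PFin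
  refine RE.ex (p := fun (L : List (List ℤ)) (w : ℕ × ℤ) => (Adm w.1 ∧ ¬ Bad w.1) ∧ ¬ w.2 = 0 ∧
    L = poly (w.1 * (w.2 * w.2)) 1 0 (-35) (-98)) ?_
  exact RE.of_comput (cp_and (cp_AB (by fun_prop)) (cp_and
    (cp_not (RE.cp_eq (by fun_prop) (by fun_prop))) (RE.cp_eq (by fun_prop) (by fun_prop))))

end

/-- the partial algorithm: it halts if one of the two searches is successful -/
theorem exists_alg : ∃ φ : List (List ℤ) →. Bool, Partrec φ ∧
    (∀ L, (φ L).Dom ↔ PInf L ∨ PFin L) ∧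
    ∀ L, ∀ r ∈ φ L, (r = true ∧ PInf L) ∨ (r = false ∧ PFin L) := by
  have hr : REPred fun x : List (List ℤ) × Bool =>
      (x.2 = true ∧ PInf x.1) ∨ (x.2 = false ∧ PFin x.1) := by
    refine RE.or (RE.and (RE.eq (by fun_prop) (by fun_prop)) (RE.comp re_PInf (by fun_prop)))
      (RE.and (RE.eq (by fun_prop) (by fun_prop)) (RE.comp re_PFin (by fun_prop)))
  obtain ⟨f, hf, h1, h2⟩ := RE.uniformize
    (r := fun (L : List (List ℤ)) (b : Bool) => (b = true ∧ PInf L) ∨ (b = false ∧ PFin L)) hr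
  refine ⟨f, hf, fun L => ?_, h2⟩
  rw [h1 L]
  constructor
  · rintro ⟨b, ⟨-, h⟩ | ⟨-, h⟩⟩
    · exact Or.inl h
    · exact Or.inr h
  · rintro (h | h)
    · exact ⟨true, Or.inl ⟨rfl, h⟩⟩
    · exact ⟨false, Or.inr ⟨rfl, h⟩⟩

/-! ### soundness and completeness of the first search -/

theorem KK_lt_of {K p q : ℤ} (hK : 0 ≤ K) (h : 2 * (K * K) < p * p + q * q) : K < max |p| |q| := by
  by_contra hcon
  push Not at hcon
  have h1 : |p| ≤ K := (le_max_left _ _).trans hcon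
  have h2 : |q| ≤ K := (le_max_right _ _).trans hcon
  have h3 : p * p ≤ K * K := by
    rw [← abs_mul_abs_self p]; exact mul_le_mul h1 h1 (abs_nonneg _) hK
  have h4 : q * q ≤ K * K := by
    rw [← abs_mul_abs_self q]; exact mul_le_mul h2 h2 (abs_nonneg _) hK
  linarith

theorem pInf_sound {L : List (List ℤ)} (h : PInf L) : ∃ d e a b c : ℤ, L = poly d e a b c ∧
    (Sol d e a b c).Infinite := by
  obtain ⟨⟨⟨d, e, a, b, c⟩, ⟨p, q, r, s, u, v⟩⟩, h1, h2, h3⟩ := h
  simp only at h1 h2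
  refine ⟨d, e, a, b, c, h2, ?_⟩
  rcases h3 with ⟨h4, h5, h6⟩ | ⟨h4, h5⟩ | ⟨h4, h5, h6, h7, h8, h9, h10⟩
  · simp only at h4 h5 h6
    rw [h4]
    have hq : (q : ℚ) ≠ 0 := by exact_mod_cast h5
    refine sol_zero (x := (p : ℚ) / q) ?_
    unfold cub at h6
    simp only at h6
    have h7 : ((e * (p * p * p) + a * (p * p * q) + b * (p * q * q) + c * (q * q * q) : ℤ) : ℚ) = 0 := by
      rw [h6]; norm_num
    push_cast at h7
    field_simp
    linear_combination -h7
  · rw [← sol_inf_iff h4 h1]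
    refine infinite_degenerate ?_
    unfold dsc at h5
    linear_combination h5
  · simp only at h4 h5 h6 h7 h8 h9 h10
    rw [← sol_inf_iff h4 h1]
    set A := shA (d, e, a, b, c) with hA
    set B := shB (d, e, a, b, c) with hB
    have hD : 4 * A ^ 3 + 27 * B ^ 2 ≠ 0 := by
      intro h11
      apply h5
      unfold dsc
      rw [← hA, ← hB]
      linear_combination h11
    have hq0 : 0 < (q : ℤ) := by exact_mod_cast Nat.pos_of_ne_zero h6
    have hcop : Nat.Coprime p.natAbs (q : ℤ).natAbs := by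
      rw [← Int.isCoprime_iff_nat_coprime]
      exact ⟨u, v, by linear_combination h8⟩
    have hn : ((p : ℚ) / ((q : ℤ) : ℚ)).num = p := Rat.num_div_eq_of_coprime hq0 hcop
    have hdn : ((((p : ℚ) / ((q : ℤ) : ℚ)).den : ℕ) : ℤ) = q := Rat.den_div_eq_of_coprime hq0 hcop
    refine infinite_of_ht hD (x := (p : ℚ) / ((q : ℤ) : ℚ)) (y := (r : ℚ) / s) ?_ ?_
    · show ((r : ℚ) / s) ^ 2 = ((p : ℚ) / ((q : ℤ) : ℚ)) ^ 3 + A * ((p : ℚ) / ((q : ℤ) : ℚ)) + B
      have hs : (s : ℚ) ≠ 0 := by exact_mod_cast h7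
      have hq : ((q : ℤ) : ℚ) ≠ 0 := by exact_mod_cast hq0.ne'
      have h12 : (r : ℚ) * r * (((q : ℤ) : ℚ) * ((q : ℤ) : ℚ) * ((q : ℤ) : ℚ)) =
          s * s * (p * p * p + A * (p * ((q : ℤ) : ℚ) * ((q : ℤ) : ℚ)) +
            B * (((q : ℤ) : ℚ) * ((q : ℤ) : ℚ) * ((q : ℤ) : ℚ))) := by exact_mod_cast h10
      field_simp
      linear_combination h12
    · unfold ht
      rw [hn, hdn]
      have h13 : 2 * (KK A B * KK A B) < p * p + (q : ℤ) * q := by
        have h14 : ¬ (p * p + (q : ℤ) * q - 2 * (KK A B * KK A B)) ≤ 0 := by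
          rw [← Int.toNat_eq_zero]
          exact h9
        linarith [not_le.1 h14]
      have h15 := KK_lt_of (by linarith [KK_pos A B]) h13
      rwa [abs_of_pos hq0] at h15

theorem pInf_complete {d e a b c : ℤ} (he : e ≠ 0) (h : (Sol d e a b c).Infinite) :
    PInf (poly d e a b c) := by
  by_cases hd : d = 0
  · subst hd
    obtain ⟨⟨x, y⟩, hx⟩ := h.nonempty
    have hx : ((0 : ℤ) : ℚ) * y ^ 2 = e * x ^ 3 + a * x ^ 2 + b * x + c := hx
    refine ⟨((0, e, a, b, c), (x.num, x.den, 0, 0, 0, 0)), he, rfl, Or.inl ⟨rfl, x.den_nz, ?_⟩⟩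
    show e * (x.num * x.num * x.num) + a * (x.num * x.num * x.den) + b * (x.num * x.den * x.den) +
      c * ((x.den : ℤ) * x.den * x.den) = 0
    have hq : (x.den : ℚ) ≠ 0 := by exact_mod_cast x.den_nz
    have h3 : x = (x.num : ℚ) / x.den := (Rat.num_div_den x).symm
    rw [h3] at hx
    have h4 : (e * (x.num * x.num * x.num) + a * (x.num * x.num * x.den) +
      b * (x.num * x.den * x.den) + c * ((x.den : ℚ) * x.den * x.den)) = 0 := by
      push_cast at hx
      rw [zero_mul] at hx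
      field_simp at hx
      linear_combination -hx
    exact_mod_cast h4
  · by_cases hD : dsc (d, e, a, b, c) = 0
    · exact ⟨((d, e, a, b, c), (0, 0, 0, 0, 0, 0)), he, rfl, Or.inr (Or.inl ⟨hd, hD⟩)⟩
    · rw [← sol_inf_iff hd he] at h
      set A := shA (d, e, a, b, c) with hA
      set B := shB (d, e, a, b, c) with hB
      obtain ⟨x, y, hxy, hht⟩ := exists_ht h (2 * (KK A B * KK A B))
      have hxy : y ^ 2 = x ^ 3 + A * x + B := hxy
      have hcop : IsCoprime x.num (x.den : ℤ) := by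
        rw [Int.isCoprime_iff_nat_coprime, Int.natAbs_natCast]
        exact x.reduced
      obtain ⟨u, v, huv⟩ := hcop
      refine ⟨((d, e, a, b, c), (x.num, x.den, y.num, y.den, u, v)), he, rfl,
        Or.inr (Or.inr ⟨hd, hD, x.den_nz, ?_, ?_, ?_, ?_⟩)⟩
      · show ¬ (y.den : ℤ) = 0
        exact_mod_cast y.den_nz
      · show x.num * u + (x.den : ℤ) * v = 1
        linear_combination huv
      · show ¬ (x.num * x.num + (x.den : ℤ) * x.den - 2 * (KK A B * KK A B)).toNat = 0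
        rw [Int.toNat_eq_zero, not_le]
        have h1 := ht_pos x
        have h2 : ht x ≤ x.num * x.num + (x.den : ℤ) * x.den := by
          have h5 : 0 ≤ x.num * x.num := mul_self_nonneg _
          have h6 : 0 ≤ (x.den : ℤ) * x.den := mul_self_nonneg _
          unfold ht
          refine max_le ?_ ?_
          · have := abs_le_sq x.num
            linarith
          · have := abs_le_sq (x.den : ℤ)
            rw [abs_of_nonneg (by positivity)] at this
            linarith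
        linarith
      · show y.num * y.num * ((x.den : ℤ) * x.den * x.den) = (y.den : ℤ) * y.den *
          (x.num * x.num * x.num + A * (x.num * x.den * x.den) + B * ((x.den : ℤ) * x.den * x.den))
        have hx : (x.den : ℚ) ≠ 0 := by exact_mod_cast x.den_nz
        have hy : (y.den : ℚ) ≠ 0 := by exact_mod_cast y.den_nz
        have h3 : x = (x.num : ℚ) / x.den := (Rat.num_div_den x).symm
        have h4 : y = (y.num : ℚ) / y.den := (Rat.num_div_den y).symm
        rw [h3, h4] at hxy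
        have h5 : (y.num : ℚ) * y.num * ((x.den : ℚ) * x.den * x.den) = (y.den : ℚ) * y.den *
          (x.num * x.num * x.num + A * (x.num * x.den * x.den) + B * ((x.den : ℚ) * x.den * x.den)) := by
          field_simp at hxy
          linear_combination hxy
        exact_mod_cast h5

end Pool.Agent.T9h61.QA
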