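import Pool.Agent.T9h61.QA.Alg

/-!
# The partial algorithm: its properties
-/

set_option autoImplicit false

open scoped Classical

namespace Pool.Agent.T9h61.QA

open Pool.Agent.Helper446 Pool.Agent.W960.GA
open Pool.Agent.R395.CT (ciadd cisub cimul cineg cicast cp_dvd cp_or cp_prime)

/-- the set `Z_f(ℚ)` of the rational zeros of `f = ∑ L_(i,j) x^i y^j` -/
def Zeros (L : List (List ℤ)) : Set (ℚ × ℚ) := {p : ℚ × ℚ |
  ∑ i ∈ Finset.range L.length, ∑ j ∈ Finset.range (L.getD i []).length,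
    (((L.getD i []).getD j 0 : ℤ) : ℚ) * p.1 ^ i * p.2 ^ j = 0}

theorem zeros_eq (d e a b c : ℤ) : Zeros (poly d e a b c) = Sol d e a b c := by
  ext ⟨x, y⟩
  unfold Zeros poly Sol
  simp only [Set.mem_ofPred_eq, List.length_cons, List.length_nil, Finset.sum_range_succ,
    Finset.sum_range_zero, List.getD_cons_zero, List.getD_cons_succ]
  push_cast
  constructor
  · intro h
    linear_combination h
  · intro h
    linear_combination h

/-! ### the second search is decidable -/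

section

attribute [local fun_prop] ciadd cisub cimul cineg cicast cmod cdiv ctoNat cpoly

/-- the coefficient of `y²` -/
def lead (L : List (List ℤ)) : ℕ := (((L[0]?).getD [])[2]?.getD 0 : ℤ).toNat

theorem clead : Computable lead := by
  unfold lead
  refine Pool.Agent.Helper566.FD.J7.prim_toNat.to_comp.comp ?_
  refine Computable.option_getD (Computable.list_getElem?.comp (Computable.option_getD
    (Computable.list_getElem?.comp Computable.id (Computable.const 0)) (Computable.const []))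
    (Computable.const 2)) (Computable.const 0)

theorem cp_PFin : ComputablePred PFin := by
  have h : ComputablePred fun L : List (List ℤ) => ∃ D < lead L + 1, ((Adm D ∧ ¬ Bad D) ∧
      ∃ m < lead L + 1, (¬ m = 0 ∧ L = poly (((D * (m * m) : ℕ) : ℤ)) 1 0 (-35) (-98))) := by
    refine cp_ex_lt (p := fun (L : List (List ℤ)) D => ((Adm D ∧ ¬ Bad D) ∧
      ∃ m < lead L + 1, (¬ m = 0 ∧ L = poly (((D * (m * m) : ℕ) : ℤ)) 1 0 (-35) (-98)))) ?_
      (by have := clead; fun_prop)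
    refine cp_and (cp_AB (by fun_prop)) ?_
    have h2 := clead
    refine cp_ex_lt (p := fun (x : List (List ℤ) × ℕ) m => (¬ m = 0 ∧
      x.1 = poly (((x.2 * (m * m) : ℕ) : ℤ)) 1 0 (-35) (-98))) ?_ ?_
    · exact cp_and (cp_not (RE.cp_eq (by fun_prop) (by fun_prop)))
        (RE.cp_eq (by fun_prop) (by fun_prop))
    · have h3 : Computable fun x : List (List ℤ) × ℕ => lead x.1 := h2.comp Computable.fst
      exact RE.cadd h3 (Computable.const 1)
  refine cp_of_iff h fun L => ?_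
  constructor
  · rintro ⟨⟨D, m⟩, h1, h2, h3⟩
    simp only at h1 h2 h3
    have hD0 : D ≠ 0 := h1.1.1.ne_zero
    have hm0 : m.natAbs ≠ 0 := Int.natAbs_ne_zero.2 h2
    have hn : (D : ℤ) * (m * m) = ((D * (m.natAbs * m.natAbs) : ℕ) : ℤ) := by
      push_cast
      rw [abs_mul_abs_self]
    have hl : lead L = D * (m.natAbs * m.natAbs) := by
      have e : ∀ n : ℤ, lead (poly n 1 0 (-35) (-98)) = n.toNat := fun n => rfl
      rw [h3, e, hn, Int.toNat_natCast]
    have hmm : 1 ≤ m.natAbs * m.natAbs := Nat.one_le_iff_ne_zero.2 (mul_ne_zero hm0 hm0)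
    have hD1 : 1 ≤ D := Nat.one_le_iff_ne_zero.2 hD0
    refine ⟨D, ?_, h1, m.natAbs, ?_, hm0, ?_⟩
    · rw [hl]
      nlinarith
    · rw [hl]
      have h4 : 1 ≤ m.natAbs := Nat.one_le_iff_ne_zero.2 hm0
      nlinarith
    · rw [h3, hn]
  · rintro ⟨D, -, h1, m, -, h2, h3⟩
    refine ⟨(D, (m : ℤ)), h1, ?_, ?_⟩
    · show ¬ (m : ℤ) = 0
      exact_mod_cast h2
    · rw [h3]
      push_cast
      rfl

end

/-! ### squarefree parts -/

theorem sqf_unique {D D' : ℕ} (hD : Squarefree D) (hD' : Squarefree D') {m m' : ℤ} (hm : m ≠ 0)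
    (hm' : m' ≠ 0) (h : (D : ℤ) * m ^ 2 = (D' : ℤ) * m' ^ 2) : D = D' := by
  have h1 : D * m.natAbs ^ 2 = D' * m'.natAbs ^ 2 := by
    have := congrArg Int.natAbs h
    rw [Int.natAbs_mul, Int.natAbs_mul, Int.natAbs_pow, Int.natAbs_pow, Int.natAbs_natCast,
      Int.natAbs_natCast] at this
    exact this
  have hn : m.natAbs ≠ 0 := Int.natAbs_ne_zero.2 hm
  have hn' : m'.natAbs ≠ 0 := Int.natAbs_ne_zero.2 hm'
  refine Nat.eq_of_factorization_eq hD.ne_zero hD'.ne_zero fun p => ?_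
  have h2 := congrArg (fun n : ℕ => n.factorization p) h1
  simp only [Nat.factorization_mul hD.ne_zero (pow_ne_zero 2 hn),
    Nat.factorization_mul hD'.ne_zero (pow_ne_zero 2 hn'), Nat.factorization_pow, Finsupp.add_apply,
    Finsupp.smul_apply, smul_eq_mul] at h2
  have h3 := hD.natFactorization_le_one p
  have h4 := hD'.natFactorization_le_one p
  omega

/-- **the algorithm**, for a property `R` of the `D` of the class which is equivalent to the
nonexistence of bad divisors and implies that there are finitely many rational zeros -/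
theorem main (R : ℕ → Prop) (hR : ∀ D, Adm D → (R D ↔ ¬ Bad D))
    (hfin : ∀ D, Adm D → R D → (Sol D 1 0 (-35) (-98)).Finite) :
    ∃ φ : List (List ℤ) →. Bool, Partrec φ ∧
    (∀ L, ∀ r ∈ φ L, (r = true ↔ (Zeros L).Infinite)) ∧
    (∀ d e a b c : ℤ, e ≠ 0 → (Zeros (poly d e a b c)).Infinite → (φ (poly d e a b c)).Dom) ∧
    ComputablePred (fun L => false ∈ φ L) ∧
    (∀ (D : ℕ) (m : ℤ), Adm D → m ≠ 0 →
      (false ∈ φ (poly (D * m ^ 2) 1 0 (-35) (-98)) ↔ R D)) := by
  obtain ⟨φ, hφ, hdom, hval⟩ := exists_alg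
  have hinf : ∀ L, PInf L → (Zeros L).Infinite := by
    intro L h
    obtain ⟨d, e, a, b, c, rfl, h1⟩ := pInf_sound h
    rw [zeros_eq]
    exact h1
  have hfin' : ∀ L, PFin L → ¬ (Zeros L).Infinite := by
    rintro L ⟨⟨D, m⟩, h1, h2, h3⟩
    simp only at h1 h2 h3
    rw [h3, zeros_eq, Set.not_infinite]
    have h4 := hfin D h1.1 ((hR D h1.1).2 h1.2)
    have hmq : (m : ℚ) ≠ 0 := by exact_mod_cast h2
    refine Set.Finite.of_finite_image (f := fun p : ℚ × ℚ => (p.1, (m : ℚ) * p.2)) ?_ ?_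
    · refine h4.subset ?_
      rintro _ ⟨⟨x, y⟩, h5, rfl⟩
      have h5 : (((D : ℤ) * (m * m) : ℤ) : ℚ) * y ^ 2 = ((1 : ℤ) : ℚ) * x ^ 3 + ((0 : ℤ) : ℚ) * x ^ 2 +
        ((-35 : ℤ) : ℚ) * x + ((-98 : ℤ) : ℚ) := h5
      show ((D : ℤ) : ℚ) * ((m : ℚ) * y) ^ 2 = ((1 : ℤ) : ℚ) * x ^ 3 + ((0 : ℤ) : ℚ) * x ^ 2 +
        ((-35 : ℤ) : ℚ) * x + ((-98 : ℤ) : ℚ)
      rw [← h5]
      push_cast
      ring
    · rintro ⟨x, y⟩ - ⟨x', y'⟩ - h5
      simp only [Prod.mk.injEq] at h5
      exact Prod.ext h5.1 (mul_left_cancel₀ hmq h5.2)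
  have hsound : ∀ L, ∀ r ∈ φ L, (r = true ↔ (Zeros L).Infinite) := by
    intro L r hr
    rcases hval L r hr with ⟨rfl, h⟩ | ⟨rfl, h⟩
    · exact ⟨fun _ => hinf L h, fun _ => rfl⟩
    · exact ⟨fun h' => Bool.noConfusion h', fun h' => absurd h' (hfin' L h)⟩
  have hfalse : ∀ L, false ∈ φ L ↔ PFin L := by
    intro L
    constructor
    · intro h
      rcases hval L _ h with ⟨h1, -⟩ | ⟨-, h1⟩
      · exact Bool.noConfusion h1
      · exact h1
    · intro h
      have hd := (hdom L).2 (Or.inr h)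
      obtain ⟨r, hr⟩ := Part.dom_iff_mem.1 hd
      rcases hval _ _ hr with ⟨-, h1⟩ | ⟨h1, -⟩
      · exact absurd (hinf _ h1) (hfin' _ h)
      · rw [h1] at hr
        exact hr
  refine ⟨φ, hφ, hsound, ?_, ?_, ?_⟩
  · intro d e a b c he h
    rw [zeros_eq] at h
    exact (hdom _).2 (Or.inl (pInf_complete he h))
  · exact cp_of_iff cp_PFin hfalse
  · intro D m hD hm
    rw [hfalse, hR D hD]
    constructor
    · rintro ⟨⟨D', m'⟩, h1, h2, h3⟩
      simp only at h1 h2 h3
      have h4 := (poly_inj h3).1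
      have h5 : (D : ℤ) * m ^ 2 = (D' : ℤ) * m' ^ 2 := by rw [h4]; ring
      rw [sqf_unique hD.1 h1.1.1 hm h2 h5]
      exact h1.2
    · intro h
      refine ⟨⟨D, m⟩, ⟨hD, h⟩, hm, ?_⟩
      show poly ((D : ℤ) * m ^ 2) 1 0 (-35) (-98) = poly ((D : ℤ) * (m * m)) 1 0 (-35) (-98)
      rw [sq]

end Pool.Agent.T9h61.QA
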